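import Mathlib

/-!
Upper density of sets with distinct consecutive sums.

For every element of `A` up to `N` (all but about `sqrt (2N)` of them) the longest block of
consecutive elements ending there whose sum is at most `N` has its sum in `(N/2, N]`, and in
`(2N/3, N]` if the block has at least two elements.  These sums are distinct.  So the number of
elements up to `N` is at most `N/2` minus the number of integers of `(N/2, 2N/3]` missing from `A`,
up to `O(sqrt N)`.  At least `N/168 - O(1)` integers are missing there, because the blocks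
`7k+1, ..., 7k+6` and `6k, ..., 6k+6` have equal sums and cannot both consist of elements of `A`.
-/

set_option autoImplicit false
open Filter Topology

namespace Pool.Agent.Results.MP_28bef0_nt.UpperDensity

/-- block sums -/
theorem sum_Ico_mono_left (a : ℕ → ℕ) {u u' v : ℕ} (h : u' ≤ u) (h2 : u ≤ v) :
    ∑ m ∈ Finset.Ico u' v, a m = ∑ m ∈ Finset.Ico u' u, a m + ∑ m ∈ Finset.Ico u v, a m :=
  (Finset.sum_Ico_consecutive a h h2).symm

/-- the longest block ending at `i` with sum at most `N` -/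
theorem longest (a : ℕ → ℕ) (ha : StrictMono a) (N i : ℕ) (h1 : a i ≤ N)
    (h2 : N < ∑ m ∈ Finset.Ico 0 (i + 1), a m) :
    ∃ u, u ≤ i ∧ ∑ m ∈ Finset.Ico u (i + 1), a m ≤ N ∧ N < 2 * ∑ m ∈ Finset.Ico u (i + 1), a m ∧
      (u = i ∨ 2 * N < 3 * ∑ m ∈ Finset.Ico u (i + 1), a m) := by
  have hex : ∃ u, ∑ m ∈ Finset.Ico u (i + 1), a m ≤ N := ⟨i, by simpa using h1⟩
  classical
  obtain ⟨u, hu⟩ : ∃ u, u = Nat.find hex := ⟨_, rfl⟩
  have hu1 : ∑ m ∈ Finset.Ico u (i + 1), a m ≤ N := by rw [hu]; exact Nat.find_spec hex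
  have hui : u ≤ i := by rw [hu]; exact Nat.find_min' hex (by simpa using h1)
  have hu0 : u ≠ 0 := by
    rintro rfl
    omega
  obtain ⟨w, rfl⟩ := Nat.exists_eq_succ_of_ne_zero hu0
  have hw : N < ∑ m ∈ Finset.Ico w (i + 1), a m := by
    have := Nat.find_min hex (show w < Nat.find hex by omega)
    omega
  have e1 : ∑ m ∈ Finset.Ico w (i + 1), a m = a w + ∑ m ∈ Finset.Ico (w + 1) (i + 1), a m :=
    Finset.sum_eq_sum_Ico_succ_bot (by omega) a
  have e2 : ∑ m ∈ Finset.Ico (w + 1) (i + 1), a m =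
      a (w + 1) + ∑ m ∈ Finset.Ico (w + 2) (i + 1), a m :=
    Finset.sum_eq_sum_Ico_succ_bot (by omega) a
  have h3 : a w < a (w + 1) := ha (Nat.lt_succ_self w)
  refine ⟨w + 1, hui, hu1, by omega, ?_⟩
  by_cases h4 : w + 1 = i
  · exact Or.inl h4
  · right
    have e3 : ∑ m ∈ Finset.Ico (w + 2) (i + 1), a m =
        a (w + 2) + ∑ m ∈ Finset.Ico (w + 3) (i + 1), a m :=
      Finset.sum_eq_sum_Ico_succ_bot (by omega) a
    have h5 : a (w + 1) < a (w + 2) := ha (Nat.lt_succ_self (w + 1))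
    omega

/-- elements of `A` which are consecutive integers are consecutive in the enumeration -/
theorem consec (a : ℕ → ℕ) (ha : StrictMono a) (x t : ℕ) (h : ∀ j < t, x + j ∈ Set.range a) :
    0 < t → ∃ u, ∀ j < t, a (u + j) = x + j := by
  intro ht
  obtain ⟨u, hu⟩ := h 0 ht
  refine ⟨u, ?_⟩
  intro j
  induction j with
  | zero => intro _; simpa using hu
  | succ j ih =>
    intro hj
    have h1 := ih (by omega)
    obtain ⟨v, hv⟩ := h (j + 1) hj
    have h2 : a (u + j) < a v := by rw [h1, hv]; omega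
    have h3 : u + j < v := ha.lt_iff_lt.1 h2
    have h4 : a (u + j) < a (u + (j + 1)) := ha (by omega)
    have h5 : a (u + (j + 1)) ≤ a v := ha.monotone (by omega)
    omega

theorem block_sum (a : ℕ → ℕ) (x t u : ℕ) (h : ∀ j < t, a (u + j) = x + j) :
    ∑ m ∈ Finset.Ico u (u + t), a m = ∑ j ∈ Finset.range t, (x + j) := by
  rw [Finset.sum_Ico_eq_sum_range]
  have : u + t - u = t := by omega
  rw [this]
  exact Finset.sum_congr rfl fun j hj => h j (Finset.mem_range.1 hj)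

/-- the coincidence `(7k+1)+...+(7k+6) = 6k+...+(6k+6)` -/
theorem coinc (a : ℕ → ℕ) (ha : StrictMono a)
    (hd : ∀ i j k l : ℕ, i < j → k < l →
        ∑ m ∈ Finset.Ico i j, a m = ∑ m ∈ Finset.Ico k l, a m → i = k ∧ j = l) (k : ℕ) :
    ∃ x, x ∉ Set.range a ∧ ((7 * k + 1 ≤ x ∧ x ≤ 7 * k + 6) ∨ (6 * k ≤ x ∧ x ≤ 6 * k + 6)) := by
  by_contra hcon
  push Not at hcon
  have h1 : ∀ j < 6, (7 * k + 1) + j ∈ Set.range a := by
    intro j hj
    by_contra h
    have := (hcon _ h).1 (by omega)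
    omega
  have h2 : ∀ j < 7, 6 * k + j ∈ Set.range a := by
    intro j hj
    by_contra h
    have := (hcon _ h).2 (by omega)
    omega
  obtain ⟨u, hu⟩ := consec a ha _ 6 h1 (by norm_num)
  obtain ⟨v, hv⟩ := consec a ha _ 7 h2 (by norm_num)
  have e1 := block_sum a _ 6 u hu
  have e2 := block_sum a _ 7 v hv
  have e3 : ∑ m ∈ Finset.Ico u (u + 6), a m = ∑ m ∈ Finset.Ico v (v + 7), a m := by
    rw [e1, e2]
    simp only [Finset.sum_range_succ, Finset.sum_range_zero]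
    ring
  have := hd u (u + 6) v (v + 7) (by omega) (by omega) e3
  omega

theorem succ_le (a : ℕ → ℕ) (ha : StrictMono a) (hpos : ∀ n, 0 < a n) (m : ℕ) : m + 1 ≤ a m := by
  induction m with
  | zero => exact hpos 0
  | succ m ih =>
    have : a m < a (m + 1) := ha (Nat.lt_succ_self m)
    omega

theorem sum_ge (a : ℕ → ℕ) (ha : StrictMono a) (hpos : ∀ n, 0 < a n) (i : ℕ) :
    (i + 1) * (i + 1) ≤ 2 * ∑ m ∈ Finset.Ico 0 (i + 1), a m := by
  induction i with
  | zero =>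
    have := hpos 0
    simp
    omega
  | succ i ih =>
    rw [Finset.sum_Ico_succ_top (by omega)]
    have := succ_le a ha hpos (i + 1)
    nlinarith

/-- many integers of `(N/2, 2N/3]` are missing -/
theorem miss (a : ℕ → ℕ) (ha : StrictMono a)
    (hd : ∀ i j k l : ℕ, i < j → k < l →
        ∑ m ∈ Finset.Ico i j, a m = ∑ m ∈ Finset.Ico k l, a m → i = k ∧ j = l) (N : ℕ)
    (M : Finset ℕ) (hM : ∀ x, x ∉ Set.range a → N < 2 * x → 3 * x ≤ 2 * N → x ∈ M) :
    N ≤ 168 * M.card + 236 := by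
  classical
  choose x hx1 hx2 using fun l : ℕ => coinc a ha hd (2 * l)
  have h1 : (Finset.Ioc (N / 24) ((2 * N - 18) / 42)).card ≤ M.card := by
    refine Finset.card_le_card_of_injOn x ?_ ?_
    · intro l hl
      rw [Finset.coe_Ioc, Set.mem_Ioc] at hl
      have h3 := hx2 l
      refine Finset.mem_coe.2 (hM _ (hx1 l) ?_ ?_) <;> omega
    · intro l hl l' hl' hll
      rw [Finset.coe_Ioc, Set.mem_Ioc] at hl hl'
      have h3 := hx2 l
      have h4 := hx2 l'
      rw [hll] at h3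
      omega
  rw [Nat.card_Ioc] at h1
  omega

/-- the explicit bound -/
theorem bound (a : ℕ → ℕ) (ha : StrictMono a) (hpos : ∀ n, 0 < a n)
    (hd : ∀ i j k l : ℕ, i < j → k < l →
        ∑ m ∈ Finset.Ico i j, a m = ∑ m ∈ Finset.Ico k l, a m → i = k ∧ j = l) (N : ℕ)
    (A : Finset ℕ) (hA : ∀ x, x ∈ A ↔ x ∈ Set.range a ∧ x ≤ N) :
    168 * A.card ≤ 83 * N + 168 * Nat.sqrt (2 * N) + 320 := by
  classical
  obtain ⟨M, hMdef⟩ : ∃ M : Finset ℕ, M = (Finset.Icc 1 N).filter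
      (fun x => x ∉ Set.range a ∧ N < 2 * x ∧ 3 * x ≤ 2 * N) := ⟨_, rfl⟩
  have hMmem : ∀ x, x ∈ M ↔ (1 ≤ x ∧ x ≤ N) ∧ (x ∉ Set.range a ∧ N < 2 * x ∧ 3 * x ≤ 2 * N) := by
    intro x
    rw [hMdef, Finset.mem_filter, Finset.mem_Icc]
  have hmiss := miss a ha hd N M (fun x h1 h2 h3 => (hMmem x).2 ⟨⟨by omega, by omega⟩, h1, h2, h3⟩)
  obtain ⟨I, hI⟩ : ∃ I : Finset ℕ, I = (Finset.range (N + 1)).filter (fun i => a i ≤ N) := ⟨_, rfl⟩
  have hImem : ∀ i, i ∈ I ↔ a i ≤ N := by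
    intro i
    rw [hI, Finset.mem_filter, Finset.mem_range]
    have := succ_le a ha hpos i
    constructor
    · exact fun h => h.2
    · intro h; exact ⟨by omega, h⟩
  have hAI : A = I.image a := by
    ext x
    rw [hA, Finset.mem_image]
    constructor
    · rintro ⟨⟨i, rfl⟩, h⟩
      exact ⟨i, (hImem i).2 h, rfl⟩
    · rintro ⟨i, hi, rfl⟩
      exact ⟨⟨i, rfl⟩, (hImem i).1 hi⟩
  have hcardA : A.card = I.card := by
    rw [hAI, Finset.card_image_of_injective _ ha.injective]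
  obtain ⟨G, hG⟩ : ∃ G : Finset ℕ, G = I.filter (fun i => N < ∑ m ∈ Finset.Ico 0 (i + 1), a m) :=
    ⟨_, rfl⟩
  have hsplit : I.card ≤ G.card + Nat.sqrt (2 * N) := by
    have h1 : I ⊆ G ∪ Finset.range (Nat.sqrt (2 * N)) := by
      intro i hi
      rw [Finset.mem_union, hG, Finset.mem_filter]
      by_cases h : N < ∑ m ∈ Finset.Ico 0 (i + 1), a m
      · exact Or.inl ⟨hi, h⟩
      · right
        rw [Finset.mem_range]
        have h2 := sum_ge a ha hpos i
        have h3 : (i + 1) * (i + 1) ≤ 2 * N := by omega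
        exact Nat.le_sqrt.2 h3
    calc I.card ≤ (G ∪ Finset.range (Nat.sqrt (2 * N))).card := Finset.card_le_card h1
      _ ≤ G.card + (Finset.range (Nat.sqrt (2 * N))).card := Finset.card_union_le _ _
      _ = G.card + Nat.sqrt (2 * N) := by rw [Finset.card_range]
  have hlong : ∀ i, ∃ u, i ∈ G → (u ≤ i ∧ ∑ m ∈ Finset.Ico u (i + 1), a m ≤ N ∧
      N < 2 * ∑ m ∈ Finset.Ico u (i + 1), a m ∧
      (u = i ∨ 2 * N < 3 * ∑ m ∈ Finset.Ico u (i + 1), a m)) := by
    intro i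
    by_cases hi : i ∈ G
    · have h1 := hi
      rw [hG, Finset.mem_filter, hImem] at h1
      obtain ⟨u, hu⟩ := longest a ha N i h1.1 h1.2
      exact ⟨u, fun _ => hu⟩
    · exact ⟨0, fun h => absurd h hi⟩
  choose u hu using hlong
  have hG1 : G.card ≤ ((Finset.Ioc (N / 2) N) \ M).card := by
    refine Finset.card_le_card_of_injOn (fun i => ∑ m ∈ Finset.Ico (u i) (i + 1), a m) ?_ ?_
    · intro i hi
      obtain ⟨h1, h2, h3, h4⟩ := hu i hi
      show (∑ m ∈ Finset.Ico (u i) (i + 1), a m) ∈ (((Finset.Ioc (N / 2) N) \ M : Finset ℕ) : Set ℕ)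
      refine Finset.mem_coe.2 (Finset.mem_sdiff.2 ⟨Finset.mem_Ioc.2 ⟨by omega, h2⟩, ?_⟩)
      intro h5
      obtain ⟨-, h6, h7, h8⟩ := (hMmem _).1 h5
      rcases h4 with h4 | h4
      · apply h6
        refine ⟨i, ?_⟩
        simp only [h4, Nat.Ico_succ_singleton, Finset.sum_singleton]
      · omega
    · intro i hi j hj hij
      have h1 := hu i hi
      have h2 := hu j hj
      have := hd (u i) (i + 1) (u j) (j + 1) (by omega) (by omega) hij
      omega
  have hMsub : M ⊆ Finset.Ioc (N / 2) N := by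
    intro x hx
    have := (hMmem x).1 hx
    rw [Finset.mem_Ioc]
    omega
  rw [Finset.card_sdiff_of_subset hMsub, Nat.card_Ioc] at hG1
  have hMle : M.card ≤ N - N / 2 := by
    have := Finset.card_le_card hMsub
    rwa [Nat.card_Ioc] at this
  omega

/-- `A` (the range of the strictly increasing sequence `a`) has distinct consecutive sums. -/
def DistinctConsecutiveSums (a : ℕ → ℕ) : Prop :=
  ∀ i j k l : ℕ, i < j → k < l →
    ∑ m ∈ Finset.Ico i j, a m = ∑ m ∈ Finset.Ico k l, a m → i = k ∧ j = l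

/-- `A(N)`: the number of elements of the set in `[1, N]`. -/
noncomputable def countUpTo (a : ℕ → ℕ) (N : ℕ) : ℕ :=
  Set.ncard {x : ℕ | x ∈ Set.range a ∧ 1 ≤ x ∧ x ≤ N}

theorem countUpTo_le (a : ℕ → ℕ) (ha : StrictMono a) (hpos : ∀ n, 0 < a n)
    (hd : DistinctConsecutiveSums a) (N : ℕ) :
    168 * countUpTo a N ≤ 83 * N + 168 * Nat.sqrt (2 * N) + 320 := by
  classical
  have h1 : {x : ℕ | x ∈ Set.range a ∧ 1 ≤ x ∧ x ≤ N} =
      (((Finset.Icc 1 N).filter (fun x => x ∈ Set.range a) : Finset ℕ) : Set ℕ) := by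
    ext x
    rw [Finset.mem_coe, Finset.mem_filter, Finset.mem_Icc]
    constructor
    · rintro ⟨h, h2⟩; exact ⟨h2, h⟩
    · rintro ⟨h, h2⟩; exact ⟨h2, h⟩
  rw [countUpTo, h1, Set.ncard_coe_finset]
  refine bound a ha hpos hd N _ ?_
  intro x
  rw [Finset.mem_filter, Finset.mem_Icc]
  constructor
  · rintro ⟨h, h2⟩; exact ⟨h2, h.2⟩
  · rintro ⟨⟨i, hi⟩, h2⟩
    have := hpos i
    exact ⟨⟨by omega, h2⟩, ⟨i, hi⟩⟩

/-- Every infinite set of positive integers with distinct consecutive sums satisfies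
`A(N) ≤ (83/168) N + sqrt (2N) + 2` for every `N`; in particular its upper density is at most
`83/168`, which is smaller than `1/2`. -/
theorem result (a : ℕ → ℕ) (ha : StrictMono a) (hpos : ∀ n, 0 < a n)
    (hd : DistinctConsecutiveSums a) :
    (∀ N : ℕ, (countUpTo a N : ℝ) ≤ 83 / 168 * (N : ℝ) + Real.sqrt (2 * (N : ℝ)) + 2) ∧
      limsup (fun N : ℕ => (countUpTo a N : ℝ) / (N : ℝ)) atTop ≤ 83 / 168 := by
  have key : ∀ N : ℕ, (countUpTo a N : ℝ) ≤ 83 / 168 * (N : ℝ) + Real.sqrt (2 * (N : ℝ)) + 2 := by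
    intro N
    have h1 := countUpTo_le a ha hpos hd N
    have h2 : (168 : ℝ) * (countUpTo a N : ℝ) ≤ 83 * (N : ℝ) + 168 * (Nat.sqrt (2 * N) : ℝ) + 320 := by
      exact_mod_cast h1
    have h3 : (Nat.sqrt (2 * N) : ℝ) ≤ Real.sqrt (2 * (N : ℝ)) := by
      have := Real.nat_sqrt_le_real_sqrt (a := 2 * N)
      push_cast at this
      exact this
    linarith
  refine ⟨key, ?_⟩
  have h0 : Tendsto (fun N : ℕ => 83 / 168 + (Real.sqrt 2 * (Real.sqrt (N : ℝ))⁻¹ + 2 * ((N : ℝ))⁻¹))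
      atTop (𝓝 (83 / 168 + (Real.sqrt 2 * 0 + 2 * 0))) := by
    refine Tendsto.const_add _ (Tendsto.add (Tendsto.const_mul _ ?_) (Tendsto.const_mul _ ?_))
    · exact (Real.tendsto_sqrt_atTop.comp tendsto_natCast_atTop_atTop).inv_tendsto_atTop
    · exact tendsto_inv_atTop_zero.comp tendsto_natCast_atTop_atTop
  have h1 : ∀ᶠ N : ℕ in atTop, (countUpTo a N : ℝ) / (N : ℝ) ≤
      83 / 168 + (Real.sqrt 2 * (Real.sqrt (N : ℝ))⁻¹ + 2 * ((N : ℝ))⁻¹) := by
    filter_upwards [eventually_gt_atTop 0] with N hN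
    have hN' : (0 : ℝ) < N := by exact_mod_cast hN
    rw [div_le_iff₀ hN']
    have h2 := key N
    have h3 : Real.sqrt (2 * (N : ℝ)) = Real.sqrt 2 * Real.sqrt N := Real.sqrt_mul (by norm_num) _
    have h4 : Real.sqrt (N : ℝ) * Real.sqrt N = N := Real.mul_self_sqrt hN'.le
    have h5 : Real.sqrt (N : ℝ) ≠ 0 := (Real.sqrt_pos.2 hN').ne'
    have h6 : (83 / 168 + (Real.sqrt 2 * (Real.sqrt (N : ℝ))⁻¹ + 2 * ((N : ℝ))⁻¹)) * (N : ℝ) =
        83 / 168 * (N : ℝ) + Real.sqrt 2 * Real.sqrt N + 2 := by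
      have e1 : (Real.sqrt (N : ℝ))⁻¹ * (N : ℝ) = Real.sqrt N := by
        rw [inv_mul_eq_iff_eq_mul₀ h5]
        exact h4.symm
      have e2 : ((N : ℝ))⁻¹ * (N : ℝ) = 1 := inv_mul_cancel₀ hN'.ne'
      linear_combination Real.sqrt 2 * e1 + 2 * e2
    rw [h6, ← h3]
    exact h2
  have h7 := limsup_le_limsup h1
    (isCoboundedUnder_le_of_le atTop (x := 0) (fun N => by positivity))
    h0.isBoundedUnder_le
  rw [h0.limsup_eq] at h7
  linarith

end Pool.Agent.Results.MP_28bef0_nt.UpperDensity
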